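import Pool.Agent.Helper583.TTStmt
import Pool.Agent.Helper583.TCStmt

/-!
Topological categoricity relative to an oracle: the definitions used in the statements.
-/

namespace Pool.Agent.H109R3.TC

open Pool.Agent.Helper583.TT (CMS IsName pre)
open Pool.Agent.Helper583.TC (orc Red)

/-- The map `h` is `a`-computable: one functional, recursive in `a`, sends every name of every
point `x` to a name of `h x`. -/
def CompMapIn (a : ℕ → ℕ) (M N : CMS) (h : M.Y → N.Y) : Prop :=
  ∃ φ : List ℕ × ℕ →. ℕ, RecursiveIn {orc a} φ ∧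
    ∀ x p, IsName M p x → ∃ q, IsName N q (h x) ∧
      ∀ n, (∃ k, q n ∈ φ (pre p k, n)) ∧ ∀ k m, m ∈ φ (pre p k, n) → m = q n

/-- `X` is `a`-categorical: between any two computable presentations of `X` there is an
`a`-computable homeomorphism. -/
def Cat (X : Type) [TopologicalSpace X] (a : ℕ → ℕ) : Prop :=
  ∀ M N : CMS, Nonempty (M.Y ≃ₜ X) → Nonempty (N.Y ≃ₜ X) →
    ∃ h : M.Y ≃ₜ N.Y, CompMapIn a M N h

/-- The stronger form in which the inverse is also required to be `a`-computable. -/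
def CatBoth (X : Type) [TopologicalSpace X] (a : ℕ → ℕ) : Prop :=
  ∀ M N : CMS, Nonempty (M.Y ≃ₜ X) → Nonempty (N.Y ≃ₜ X) →
    ∃ h : M.Y ≃ₜ N.Y, CompMapIn a M N h ∧ CompMapIn a N M h.symm

theorem CatBoth.cat {X : Type} [TopologicalSpace X] {a : ℕ → ℕ} (h : CatBoth X a) : Cat X a :=
  fun M N hM hN => by
    obtain ⟨g, h1, _⟩ := h M N hM hN
    exact ⟨g, h1⟩

end Pool.Agent.H109R3.TC
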