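import Pool.Agent.H109R3.TC.Upper
import Pool.Agent.Helper743.Lim
import Pool.Agent.Helper583.TCJ14

/-!
Discrete countable spaces: a presentation by pairs of points which codes the halting problem.
-/

namespace Pool.Agent.H109R3.TC

open Pool.Agent.Helper583.TT (CMS IsName pre)
open Pool.Agent.Helper583.TC (orc Red)
open Pool.Agent.Helper743 (RecT RecT.comp RecT.pair RecT.prec RecT.find TR K chi chi_TR_K hlt'
  hlt'_primrec Kt Kt_lim)

/-- halting -/
def Hp (z : ℕ) : Prop := ∃ t, hlt' z t = true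

theorem hlt_mono {z t t' : ℕ} (h : t ≤ t') (h1 : hlt' z t = true) : hlt' z t' = true := by
  unfold hlt' at *
  rw [Option.isSome_iff_exists] at *
  obtain ⟨a, ha⟩ := h1
  exact ⟨a, Nat.Partrec.Code.evaln_mono h ha⟩

theorem K_eq (z : ℕ) : (Hp z → K z = 1) ∧ (¬ Hp z → K z = 0) := by
  obtain ⟨s0, hs0⟩ := Kt_lim z
  constructor
  · rintro ⟨t, ht⟩
    rw [← hs0 (max s0 t) (le_max_left _ _)]
    unfold Kt
    rw [hlt_mono (le_max_right _ _) ht]
    rfl
  · intro h
    rw [← hs0 s0 le_rfl]
    unfold Kt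
    have : hlt' z s0 = false := by
      by_contra hcon
      exact h ⟨s0, by simpa using hcon⟩
    rw [this]
    rfl

open scoped Classical in
/-- position of the second point of the pair, relative to the first -/
noncomputable def gp (z : ℕ) : ℝ := if h : Hp z then 1 / 2 ^ (Nat.find h) else 0

theorem gp_nonneg (z : ℕ) : 0 ≤ gp z := by
  unfold gp; split_ifs <;> positivity

theorem gp_le (z : ℕ) : gp z ≤ 1 := by
  unfold gp
  split_ifs
  · rw [div_le_one (by positivity)]
    exact one_le_pow₀ (by norm_num)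
  · norm_num

theorem gp_pos {z : ℕ} : gp z ≠ 0 ↔ Hp z := by
  unfold gp
  split_ifs with h
  · simp only [h, iff_true]
    positivity
  · simp [h]

/-- the points, as real numbers -/
noncomputable def pt (i : ℕ) : ℝ := 2 * ((i / 2 : ℕ) : ℝ) + if i % 2 = 0 then 0 else gp (i / 2)

/-- the set of points -/
def PS : Set ℝ := Set.range pt

theorem pt_mem (i : ℕ) : 2 * ((i / 2 : ℕ) : ℝ) ≤ pt i ∧ pt i ≤ 2 * ((i / 2 : ℕ) : ℝ) + 1 := by
  unfold pt
  have h1 := gp_nonneg (i / 2)
  have h2 := gp_le (i / 2)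
  split_ifs <;> constructor <;> linarith

theorem locallyFinite : LocallyFinite fun i : ℕ => ({pt i} : Set ℝ) := by
  intro x
  refine ⟨Metric.ball x 1, Metric.ball_mem_nhds x one_pos, ?_⟩
  obtain ⟨n, hn⟩ := exists_nat_gt (|x| + 1)
  refine (Set.finite_lt_nat (2 * n + 2)).subset ?_
  rintro i ⟨y, hy, hy2⟩
  rw [Set.mem_singleton_iff] at hy
  subst hy
  rw [Metric.mem_ball, Real.dist_eq, abs_lt] at hy2
  have h1 := (pt_mem i).1
  have h2 := le_abs_self x
  have h3 : ((i / 2 : ℕ) : ℝ) < n := by linarith [Nat.cast_nonneg (α := ℝ) (i / 2)]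
  have h4 : i / 2 < n := by exact_mod_cast h3
  show i < 2 * n + 2
  omega

theorem closedPS : IsClosed PS := by
  have h : PS = ⋃ i : ℕ, ({pt i} : Set ℝ) := by
    unfold PS
    ext x
    simp [eq_comm]
  rw [h]
  exact locallyFinite.isClosed_iUnion fun i => isClosed_singleton

instance : CompleteSpace PS := closedPS.completeSpace_coe

theorem discretePS : DiscreteTopology PS := by
  refine discreteTopology_iff_isOpen_singleton.2 ?_
  rintro ⟨x, hx⟩
  -- the other points form a closed set
  have hcl : IsClosed (⋃ i : {i : ℕ // pt i ≠ x}, ({pt i.1} : Set ℝ)) := by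
    have hl : LocallyFinite fun i : {i : ℕ // pt i ≠ x} => ({pt i.1} : Set ℝ) := by
      exact locallyFinite.comp_injective Subtype.val_injective
    exact hl.isClosed_iUnion fun i => isClosed_singleton
  have h2 : ({⟨x, hx⟩} : Set PS) = Subtype.val ⁻¹' (⋃ i : {i : ℕ // pt i ≠ x}, ({pt i.1} : Set ℝ))ᶜ := by
    ext ⟨y, hy⟩
    have e0 : ((⟨y, hy⟩ : PS) ∈ ({⟨x, hx⟩} : Set PS)) ↔ y = x := by
      rw [Set.mem_singleton_iff]
      exact ⟨fun h => congrArg Subtype.val h, fun h => Subtype.ext h⟩
    rw [e0]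
    obtain ⟨j, hj⟩ := hy
    simp only [Set.mem_preimage, Set.mem_compl_iff,
      Set.mem_iUnion, Set.mem_singleton_iff, Subtype.exists, not_exists]
    constructor
    · rintro h i hi h3
      rw [← h3, h] at hi
      exact hi rfl
    · intro h
      by_contra hcon
      exact h j (by rw [hj]; exact hcon) hj.symm
  rw [h2]
  exact hcl.isOpen_compl.preimage continuous_subtype_val

/-- approximate value of the `i`-th point -/
def ap (i k : ℕ) : ℕ :=
  2 * (i / 2) * 2 ^ k + if i % 2 = 0 then 0 else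
    if hlt' (i / 2) k = true then 2 ^ (k - (List.range k).findIdx (fun t => hlt' (i / 2) t)) else 0

theorem findIdx_eq {z k : ℕ} (h : Hp z) [DecidablePred fun t => hlt' z t = true]
    (hk : hlt' z k = true) : (List.range k).findIdx (fun t => hlt' z t) = Nat.find h := by
  have h1 : Nat.find h ≤ k := Nat.find_min' h hk
  apply le_antisymm
  · by_contra hcon
    push Not at hcon
    have h3 := List.not_of_lt_findIdx hcon
    have hlt := lt_of_lt_of_le hcon (List.findIdx_le_length)
    rw [List.length_range] at hlt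
    rw [List.getElem_range] at h3
    rw [Nat.find_spec h] at h3
    exact absurd h3 (by simp)
  · by_contra hcon
    push Not at hcon
    have hlt : (List.range k).findIdx (fun t => hlt' z t) < (List.range k).length := by
      rw [List.length_range]; omega
    have h3 := List.findIdx_getElem (w := hlt)
    rw [List.getElem_range] at h3
    exact Nat.find_min h hcon h3

theorem ap_err (i k : ℕ) : |pt i * 2 ^ k - ap i k| ≤ 1 / 2 := by
  classical
  unfold pt ap
  by_cases h : i % 2 = 0
  · simp only [h, if_true, Nat.add_zero, add_zero]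
    push_cast
    rw [sub_self, abs_zero]
    norm_num
  · simp only [h, if_false]
    by_cases h1 : hlt' (i / 2) k = true
    · have hh : Hp (i / 2) := ⟨k, h1⟩
      rw [if_pos h1]
      unfold gp
      rw [dif_pos hh, findIdx_eq hh h1]
      have h2 : Nat.find hh ≤ k := Nat.find_min' hh h1
      have h3 : (1 : ℝ) / 2 ^ Nat.find hh * 2 ^ k = 2 ^ (k - Nat.find hh) := by
        rw [pow_sub₀ _ (by norm_num) h2]
        field_simp
      push_cast
      rw [add_mul, h3, add_sub_add_left_eq_sub, sub_self, abs_zero]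
      norm_num
    · rw [if_neg h1]
      push_cast
      rw [add_mul, add_zero, add_sub_cancel_left]
      unfold gp
      split_ifs with hh
      · have h2 : k + 1 ≤ Nat.find hh := by
          by_contra hcon
          exact h1 (hlt_mono (by omega) (Nat.find_spec hh))
        have h3 : (2 : ℝ) ^ (k + 1) ≤ 2 ^ Nat.find hh := pow_le_pow_right₀ (by norm_num) h2
        rw [abs_of_nonneg (by positivity), div_mul_eq_mul_div, one_mul,
          div_le_div_iff₀ (by positivity) (by norm_num)]
        rw [pow_succ] at h3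
        linarith
      · norm_num

theorem ap_primrec : Primrec₂ ap := by
  have hpow : Primrec₂ (fun a b : ℕ => a ^ b) := Primrec₂.unpaired'.1 Nat.Primrec.pow
  have hdiv : Primrec fun p : ℕ × ℕ => p.1 / 2 := Primrec.nat_div.comp Primrec.fst (Primrec.const 2)
  have e1 : PrimrecPred fun p : ℕ × ℕ => p.1 % 2 = 0 :=
    Primrec.eq.comp (Primrec.nat_mod.comp Primrec.fst (Primrec.const 2)) (Primrec.const 0)
  have e2 : PrimrecPred fun p : ℕ × ℕ => hlt' (p.1 / 2) p.2 = true :=
    Primrec.eq.comp (hlt'_primrec.comp hdiv Primrec.snd) (Primrec.const true)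
  have h3 : Primrec fun p : ℕ × ℕ => (List.range p.2).findIdx (fun t => hlt' (p.1 / 2) t) := by
    refine Primrec.list_findIdx (f := fun p : ℕ × ℕ => List.range p.2)
      (p := fun p t => hlt' (p.1 / 2) t) (Primrec.list_range.comp Primrec.snd) ?_
    exact hlt'_primrec.comp (hdiv.comp Primrec.fst) Primrec.snd
  have h4 : Primrec fun p : ℕ × ℕ => 2 * (p.1 / 2) * 2 ^ p.2 :=
    Primrec.nat_mul.comp (Primrec.nat_mul.comp (Primrec.const 2) hdiv)
      (hpow.comp (Primrec.const 2) Primrec.snd)
  exact Primrec.nat_add.comp h4 (Primrec.ite e1 (Primrec.const 0) (Primrec.ite e2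
    (hpow.comp (Primrec.const 2) (Primrec.nat_sub.comp Primrec.snd h3)) (Primrec.const 0)))

/-- the presentation by pairs -/
noncomputable def Tw : CMS where
  Y := PS
  c := fun i => ⟨pt i, i, rfl⟩
  dense := by
    intro x
    obtain ⟨x, i, rfl⟩ := x
    exact subset_closure ⟨i, rfl⟩
  comp := by
    refine ⟨fun p => (ap p.1 p.2.2 - ap p.2.1 p.2.2) + (ap p.2.1 p.2.2 - ap p.1 p.2.2), ?_, ?_⟩
    · have a1 : Primrec fun p : ℕ × ℕ × ℕ => ap p.1 p.2.2 :=
        ap_primrec.comp Primrec.fst (Primrec.snd.comp Primrec.snd)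
      have a2 : Primrec fun p : ℕ × ℕ × ℕ => ap p.2.1 p.2.2 :=
        ap_primrec.comp (Primrec.fst.comp Primrec.snd) (Primrec.snd.comp Primrec.snd)
      exact (Primrec.nat_add.comp (Primrec.nat_sub.comp a1 a2) (Primrec.nat_sub.comp a2 a1)).to_comp
    · intro i j k
      have h1 := ap_err i k
      have h2 := ap_err j k
      have h3 : (((ap i k - ap j k) + (ap j k - ap i k) : ℕ) : ℝ) = |(ap i k : ℝ) - ap j k| := by
        rcases le_total (ap i k) (ap j k) with h | h
        · rw [Nat.sub_eq_zero_of_le h, zero_add, Nat.cast_sub h, abs_sub_comm,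
            abs_of_nonneg (by simpa using h)]
        · rw [Nat.sub_eq_zero_of_le h, add_zero, Nat.cast_sub h,
            abs_of_nonneg (by simpa using h)]
      show |dist (pt i) (pt j) - _| ≤ _
      simp only
      rw [h3, Real.dist_eq]
      have hp : (0 : ℝ) < 2 ^ k := by positivity
      have h4 : |pt i - pt j| - |(ap i k : ℝ) - ap j k| / 2 ^ k =
          (|pt i * 2 ^ k - pt j * 2 ^ k| - |(ap i k : ℝ) - ap j k|) / 2 ^ k := by
        rw [← sub_mul, abs_mul, abs_of_pos hp]
        field_simp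
      rw [h4, abs_div, abs_of_pos hp]
      gcongr
      refine (abs_abs_sub_abs_le_abs_sub _ _).trans ?_
      have h5 : pt i * 2 ^ k - pt j * 2 ^ k - ((ap i k : ℝ) - ap j k) =
          (pt i * 2 ^ k - ap i k) - (pt j * 2 ^ k - ap j k) := by ring
      rw [h5]
      refine (abs_sub _ _).trans ?_
      linarith

theorem infinitePS : Infinite PS := by
  refine Infinite.of_injective (fun n : ℕ => (⟨pt (2 * n), 2 * n, rfl⟩ : PS)) ?_
  intro a b h
  simp only [Subtype.mk.injEq, pt] at h
  simpa using h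

theorem tw_homeo : Nonempty (Tw.Y ≃ₜ ℕ) := by
  show Nonempty (PS ≃ₜ ℕ)
  have h1 : DiscreteTopology PS := discretePS
  have h2 : Infinite PS := infinitePS
  have h3 : Countable PS := (Set.countable_range pt).to_subtype
  obtain ⟨e⟩ := nonempty_equiv_of_countable (α := PS) (β := ℕ)
  exact ⟨Equiv.toHomeomorphOfDiscrete e⟩

/-- the standard presentation -/
noncomputable def Sd : CMS where
  Y := ℕ
  c := id
  dense := fun x => subset_closure ⟨x, rfl⟩
  comp := by
    refine ⟨fun p => ((p.1 - p.2.1) + (p.2.1 - p.1)) * 2 ^ p.2.2, ?_, ?_⟩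
    · have hpow : Primrec₂ (fun a b : ℕ => a ^ b) := Primrec₂.unpaired'.1 Nat.Primrec.pow
      have a2 : Primrec fun p : ℕ × ℕ × ℕ => p.2.1 := Primrec.fst.comp Primrec.snd
      exact (Primrec.nat_mul.comp (Primrec.nat_add.comp (Primrec.nat_sub.comp Primrec.fst a2)
        (Primrec.nat_sub.comp a2 Primrec.fst))
        (hpow.comp (Primrec.const 2) (Primrec.snd.comp Primrec.snd))).to_comp
    · intro i j k
      have h3 : (((i - j) + (j - i) : ℕ) : ℝ) = |(i : ℝ) - j| := by
        rcases le_total i j with h | h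
        · rw [Nat.sub_eq_zero_of_le h, zero_add, Nat.cast_sub h, abs_sub_comm,
            abs_of_nonneg (by simpa using h)]
        · rw [Nat.sub_eq_zero_of_le h, add_zero, Nat.cast_sub h,
            abs_of_nonneg (by simpa using h)]
      simp only [id]
      rw [Nat.dist_eq, Nat.cast_mul, h3]
      push_cast
      rw [mul_div_assoc, div_self (by positivity), mul_one, sub_self, abs_zero]
      positivity

theorem sd_homeo : Nonempty (Sd.Y ≃ₜ ℕ) := ⟨Homeomorph.refl ℕ⟩

/-- every degree in which the discrete countable space is categorical computes the halting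
problem -/
theorem lower {a : ℕ → ℕ} (ha : Cat ℕ a) : Red K a := by
  obtain ⟨h, φ, hφ, hspec⟩ := ha Tw Sd tw_homeo sd_homeo
  -- values at the points
  have hnm : ∀ i, IsName Tw (fun _ => i) (Tw.c i) := fun i k => by
    rw [dist_self]; positivity
  have hv : ∀ i, (∃ k, h (Tw.c i) ∈ φ (pre (fun _ => i) k, 1)) ∧
      ∀ k m, m ∈ φ (pre (fun _ => i) k, 1) → m = h (Tw.c i) := by
    intro i
    obtain ⟨q, hq, hq2⟩ := hspec (Tw.c i) (fun _ => i) (hnm i)
    have h1 : q 1 = h (Tw.c i) := by
      have h2 : dist (q 1) (h (Tw.c i) : ℕ) ≤ 1 / 2 ^ 1 := hq 1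
      by_contra hcon
      have h3 : (1 : ℝ) ≤ dist (q 1) (h (Tw.c i) : ℕ) := Nat.pairwise_one_le_dist hcon
      norm_num at h2
      linarith
    rw [← h1]
    exact hq2 1
  have hpre : Computable fun p : ℕ × ℕ => (pre (fun _ => p.1) p.2, 1) := by
    have h1 : Primrec fun p : ℕ × ℕ => (List.range p.2).map fun _ => p.1 :=
      Primrec.list_map (Primrec.list_range.comp Primrec.snd) (Primrec.fst.comp Primrec.fst)
    exact (h1.pair (Primrec.const 1)).to_comp
  have hf : RecursiveIn {orc a} fun p : ℕ × ℕ => φ (pre (fun _ => p.1) p.2, 1) :=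
    Pool.Agent.Helper583.TC.J14.recIn_comp hφ hpre
  obtain ⟨g, hg, hg1, hg2⟩ := Pool.Agent.Helper583.TC.J2.select hf
  have hgv : ∀ i, g i = Part.some (h (Tw.c i)) := by
    intro i
    obtain ⟨k, hk⟩ := (hv i).1
    have hd : (g i).Dom := hg2 i k (Part.dom_iff_mem.2 ⟨_, hk⟩)
    obtain ⟨m, hm⟩ := Part.dom_iff_mem.1 hd
    obtain ⟨k', hk'⟩ := hg1 i m hm
    rw [(hv i).2 k' m hk'] at hm
    exact Part.eq_some_iff.2 hm
  have hG : RecT {orc a} fun i => h (Tw.c i) := hg.of_eq hgv
  have hne : Computable₂ fun u v : ℕ => if u = v then 0 else 1 :=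
    (Primrec.ite (Primrec.eq.comp Primrec.fst Primrec.snd) (Primrec.const 0)
      (Primrec.const 1)).to_comp
  have hev : Computable fun z : ℕ => 2 * z := (Primrec.nat_mul.comp (Primrec.const 2) Primrec.id).to_comp
  have hod : Computable fun z : ℕ => 2 * z + 1 := Computable.succ.comp hev
  have hfin := rmap₂ hne (hG.comp (recT_of hev)) (hG.comp (recT_of hod))
  refine (show (fun n => _) = K from ?_) ▸ hfin
  funext z
  have h1 : Tw.c (2 * z) = Tw.c (2 * z + 1) ↔ ¬ Hp z := by
    rw [← not_iff_not.2 (gp_pos (z := z)), not_not]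
    have e0 : Tw.c (2 * z) = Tw.c (2 * z + 1) ↔ pt (2 * z) = pt (2 * z + 1) :=
      ⟨fun h => congrArg (fun x : PS => (x : ℝ)) h, fun h => Subtype.ext (p := fun x => x ∈ PS) h⟩
    rw [e0]
    unfold pt
    have e1 : 2 * z / 2 = z := by omega
    have e2 : (2 * z + 1) / 2 = z := by omega
    have e3 : 2 * z % 2 = 0 := by omega
    have e4 : (2 * z + 1) % 2 ≠ 0 := by omega
    rw [e1, e2, if_pos e3, if_neg e4, add_right_inj, eq_comm]
  by_cases hz : Hp z
  · rw [(K_eq z).1 hz, if_neg]
    intro hcon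
    exact (h1.1 (h.injective hcon)) hz
  · rw [(K_eq z).2 hz, if_pos]
    rw [h1.2 hz]

end Pool.Agent.H109R3.TC
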