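import Pool.Agent.H109R3.TC.Stmt
import Pool.Agent.Helper743.Ideal

/-!
Discrete countable spaces: any two presentations are `0'`-computably homeomorphic.
-/

namespace Pool.Agent.H109R3.TC

open Pool.Agent.Helper583.TT (CMS IsName pre)
open Pool.Agent.Helper583.TC (orc Red)
open Pool.Agent.Helper743 (RecT RecT.comp RecT.pair RecT.prec RecT.find TR K chi chi_TR_K)

theorem recT_of {f : ℕ → ℕ} (hf : Computable f) {O : Set (ℕ →. ℕ)} : RecT O f :=
  Pool.Agent.Helper743.Computable.recT hf

theorem cpair {α : Type} [Primcodable α] {f g : α → ℕ} (hf : Computable f) (hg : Computable g) :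
    Computable fun a => Nat.pair (f a) (g a) :=
  Primrec₂.natPair.to_comp.comp hf hg

theorem c1 : Computable fun n : ℕ => n.unpair.1 := Computable.fst.comp Computable.unpair
theorem c2 : Computable fun n : ℕ => n.unpair.2 := Computable.snd.comp Computable.unpair

theorem rcomp₂ {O : Set (ℕ →. ℕ)} {F f g : ℕ → ℕ} (hF : RecT O F) (hf : RecT O f)
    (hg : RecT O g) : RecT O fun n => F (Nat.pair (f n) (g n)) :=
  hF.comp (hf.pair hg)

/-- apply a computable function of two arguments -/
theorem rmap₂ {O : Set (ℕ →. ℕ)} {F : ℕ → ℕ → ℕ} {f g : ℕ → ℕ} (hF : Computable₂ F)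
    (hf : RecT O f) (hg : RecT O g) : RecT O fun n => F (f n) (g n) := by
  have h1 : Computable fun m : ℕ => F m.unpair.1 m.unpair.2 := hF.comp c1 c2
  have := (recT_of h1 (O := O)).comp (hf.pair hg)
  simpa using this

theorem recT_id {O : Set (ℕ →. ℕ)} : RecT O fun n => n := recT_of Computable.id
theorem recT_const {O : Set (ℕ →. ℕ)} (c : ℕ) : RecT O fun _ => c := recT_of (Computable.const c)

theorem re_ex {f : ℕ → ℕ → Bool} (hf : Computable₂ f) : REPred fun a => ∃ n, f a n = true := by
  refine ((Partrec.rfind hf.partrec₂).dom_re).of_eq ?_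
  intro z
  refine Iff.trans (Nat.rfind_dom (p := fun s => (Part.some (f z s) : Part Bool))) ?_
  constructor
  · rintro ⟨s, hs, _⟩
    rw [Part.mem_some_iff] at hs
    exact ⟨s, hs.symm⟩
  · rintro ⟨s, hs⟩
    exact ⟨s, by rw [hs]; exact Part.mem_some _, fun {m} _ => trivial⟩

section one

variable (M : CMS)

/-- two indices of different points -/
def Sep (z : ℕ) : Prop := M.c z.unpair.1 ≠ M.c z.unpair.2

/-- some other point is closer than `2 ^ -r` -/
def Nb (z : ℕ) : Prop := ∃ j, M.c z.unpair.1 ≠ M.c j ∧ dist (M.c z.unpair.1) (M.c j) < 1 / 2 ^ z.unpair.2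

theorem pos_iff {d : ℝ} {q : ℕ → ℕ} (h : ∀ k, |d - (q k : ℝ) / 2 ^ k| ≤ 1 / 2 ^ k) :
    0 < d ↔ ∃ k, 2 ≤ q k := by
  constructor
  · intro hd
    obtain ⟨k, hk⟩ := exists_pow_lt_of_lt_one (show (0 : ℝ) < d / 2 by positivity)
      (show (1 / 2 : ℝ) < 1 by norm_num)
    refine ⟨k, ?_⟩
    by_contra hcon
    have h1 : (q k : ℝ) ≤ 1 := by
      have : q k ≤ 1 := by omega
      exact_mod_cast this
    have h2 := (abs_le.1 (h k)).2
    rw [one_div_pow] at hk
    have h3 : (q k : ℝ) / 2 ^ k ≤ 1 / 2 ^ k := by gcongr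
    linarith
  · rintro ⟨k, hk⟩
    have h2 := (abs_le.1 (h k)).1
    have h3 : (2 : ℝ) ≤ q k := by exact_mod_cast hk
    have h4 : (2 : ℝ) / 2 ^ k ≤ q k / 2 ^ k := by gcongr
    have h5 : (0 : ℝ) < 1 / 2 ^ k := by positivity
    have h6 : (2 : ℝ) / 2 ^ k = 2 * (1 / 2 ^ k) := by ring
    linarith

theorem lt_iff {d : ℝ} {q : ℕ → ℕ} (h : ∀ k, |d - (q k : ℝ) / 2 ^ k| ≤ 1 / 2 ^ k) (r : ℕ) :
    d < 1 / 2 ^ r ↔ ∃ k, (q k + 1) * 2 ^ r < 2 ^ k := by
  have key : ∀ k, (q k + 1) * 2 ^ r < 2 ^ k ↔ ((q k : ℝ) + 1) / 2 ^ k < 1 / 2 ^ r := by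
    intro k
    rw [div_lt_div_iff₀ (by positivity) (by positivity), one_mul]
    exact_mod_cast Iff.rfl
  constructor
  · intro hd
    obtain ⟨k, hk⟩ := exists_pow_lt_of_lt_one (show (0 : ℝ) < (1 / 2 ^ r - d) / 2 by linarith)
      (show (1 / 2 : ℝ) < 1 by norm_num)
    refine ⟨k, (key k).2 ?_⟩
    have h2 := (abs_le.1 (h k)).1
    rw [one_div_pow] at hk
    have h3 : ((q k : ℝ) + 1) / 2 ^ k = q k / 2 ^ k + 1 / 2 ^ k := by ring
    linarith
  · rintro ⟨k, hk⟩
    have h1 := (key k).1 hk
    have h2 := (abs_le.1 (h k)).2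
    have h3 : ((q k : ℝ) + 1) / 2 ^ k = q k / 2 ^ k + 1 / 2 ^ k := by ring
    linarith

theorem comp_two_pow : Computable (fun n : ℕ => 2 ^ n) := by
  have h : Primrec₂ (fun a b : ℕ => a ^ b) := Primrec₂.unpaired'.1 Nat.Primrec.pow
  exact (h.comp (Primrec.const 2) Primrec.id).to_comp

theorem sep_re : REPred (Sep M) := by
  obtain ⟨q, hq, hq2⟩ := M.comp
  have h1 : Computable₂ fun z k : ℕ => decide (2 ≤ q (z.unpair.1, z.unpair.2, k)) := by
    have h2 : Computable fun p : ℕ × ℕ => q (p.1.unpair.1, p.1.unpair.2, p.2) :=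
      hq.comp ((c1.comp Computable.fst).pair ((c2.comp Computable.fst).pair Computable.snd))
    have h3 : Computable₂ fun a b : ℕ => decide (a ≤ b) := Primrec.nat_le.decide.to_comp
    exact h3.comp (Computable.const 2) h2
  refine (re_ex h1).of_eq fun z => ?_
  unfold Sep
  rw [← dist_pos, pos_iff (hq2 z.unpair.1 z.unpair.2)]
  simp

theorem nb_re : REPred (Nb M) := by
  obtain ⟨q, hq, hq2⟩ := M.comp
  -- the witness `n` codes `j`, `k`, `k'`
  have h1 : Computable₂ fun z n : ℕ =>
      (decide (2 ≤ q (z.unpair.1, n.unpair.1, n.unpair.2.unpair.1)) &&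
        decide ((q (z.unpair.1, n.unpair.1, n.unpair.2.unpair.2) + 1) * 2 ^ z.unpair.2 <
          2 ^ n.unpair.2.unpair.2)) := by
    have a1 : Computable fun p : ℕ × ℕ => p.1.unpair.1 := c1.comp Computable.fst
    have a2 : Computable fun p : ℕ × ℕ => p.1.unpair.2 := c2.comp Computable.fst
    have b1 : Computable fun p : ℕ × ℕ => p.2.unpair.1 := c1.comp Computable.snd
    have b2 : Computable fun p : ℕ × ℕ => p.2.unpair.2.unpair.1 := c1.comp (c2.comp Computable.snd)
    have b3 : Computable fun p : ℕ × ℕ => p.2.unpair.2.unpair.2 := c2.comp (c2.comp Computable.snd)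
    have le : Computable₂ fun a b : ℕ => decide (a ≤ b) := Primrec.nat_le.decide.to_comp
    have lt : Computable₂ fun a b : ℕ => decide (a < b) := Primrec.nat_lt.decide.to_comp
    have and' : Computable₂ and := Primrec.and.to_comp
    have mul : Computable₂ fun a b : ℕ => a * b := Primrec.nat_mul.to_comp
    refine and'.comp (le.comp (Computable.const 2) (hq.comp (a1.pair (b1.pair b2)))) ?_
    refine lt.comp (mul.comp ?_ (comp_two_pow.comp a2)) (comp_two_pow.comp b3)
    exact Computable.succ.comp (hq.comp (a1.pair (b1.pair b3)))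
  refine (re_ex h1).of_eq fun z => ?_
  unfold Nb
  constructor
  · rintro ⟨n, hn⟩
    rw [Bool.and_eq_true, decide_eq_true_eq, decide_eq_true_eq] at hn
    refine ⟨n.unpair.1, ?_, ?_⟩
    · rw [← dist_pos]
      exact (pos_iff (hq2 z.unpair.1 n.unpair.1)).2 ⟨_, hn.1⟩
    · exact (lt_iff (hq2 z.unpair.1 n.unpair.1) z.unpair.2).2 ⟨_, hn.2⟩
  · rintro ⟨j, h2, h3⟩
    rw [← dist_pos] at h2
    obtain ⟨k, hk⟩ := (pos_iff (hq2 z.unpair.1 j)).1 h2
    obtain ⟨k', hk'⟩ := (lt_iff (hq2 z.unpair.1 j) z.unpair.2).1 h3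
    refine ⟨Nat.pair j (Nat.pair k k'), ?_⟩
    simp only [Nat.unpair_pair, Bool.and_eq_true, decide_eq_true_eq]
    exact ⟨hk, hk'⟩

open scoped Classical in
/-- the index is the first one of its point -/
def New (j : ℕ) : Prop := ∀ i < j, M.c i ≠ M.c j

theorem chi_eq_one {p : ℕ → Prop} {n : ℕ} (h : p n) : chi p n = 1 := by
  unfold chi; rw [if_pos h]

theorem chi_eq_zero {p : ℕ → Prop} {n : ℕ} (h : ¬ p n) : chi p n = 0 := by
  unfold chi; rw [if_neg h]

theorem chi_zero_iff {p : ℕ → Prop} {n : ℕ} : chi p n = 0 ↔ ¬ p n := by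
  constructor
  · intro h hp
    rw [chi_eq_one hp] at h
    exact one_ne_zero h
  · exact chi_eq_zero

theorem rect_new : TR (chi (New M)) K := by
  have h1 : TR (chi (Sep M)) K := chi_TR_K (sep_re M)
  -- product over `i < n` of `sep (i, j)`
  have h2 : RecT {(K : ℕ →. ℕ)} fun m =>
      m.unpair.2.unpair.2 * chi (Sep M) (Nat.pair m.unpair.2.unpair.1 m.unpair.1) := by
    have mul : Computable₂ fun a b : ℕ => a * b := Primrec.nat_mul.to_comp
    exact rmap₂ mul (recT_of (c2.comp c2)) (rcomp₂ h1 (recT_of (c1.comp c2)) (recT_of c1))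
  have h3 := (RecT.prec (recT_const 1) h2).comp (recT_id.pair recT_id)
  refine (show (fun n => _) = chi (New M) from ?_) ▸ h3
  funext j
  simp only [Nat.unpair_pair]
  have key : ∀ n, (Nat.rec (motive := fun _ => ℕ) 1
      (fun y ih => ih * chi (Sep M) (Nat.pair y j)) n = 1 ∧ ∀ i < n, M.c i ≠ M.c j) ∨
      (Nat.rec (motive := fun _ => ℕ) 1
      (fun y ih => ih * chi (Sep M) (Nat.pair y j)) n = 0 ∧ ¬ ∀ i < n, M.c i ≠ M.c j) := by
    intro n
    induction n with
    | zero => left; exact ⟨rfl, fun i hi => absurd hi (Nat.not_lt_zero _)⟩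
    | succ n ih =>
      rcases ih with ⟨h, h'⟩ | ⟨h, h'⟩
      · by_cases hs : Sep M (Nat.pair n j)
        · left
          refine ⟨by simp only [h, chi_eq_one hs, mul_one], fun i hi => ?_⟩
          rcases Nat.lt_succ_iff_lt_or_eq.1 hi with h4 | h4
          · exact h' i h4
          · subst h4; simpa [Sep] using hs
        · right
          refine ⟨by simp only [h, chi_eq_zero hs, mul_zero], fun h4 => hs ?_⟩
          simpa [Sep] using h4 n (Nat.lt_succ_self n)
      · right
        refine ⟨by simp only [h, zero_mul], fun h4 => h' fun i hi => h4 i (by omega)⟩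
  rcases key j with ⟨h, h'⟩ | ⟨h, h'⟩
  · rw [h, chi_eq_one (show New M j from h')]
  · rw [h, chi_eq_zero (show ¬ New M j from h')]

open scoped Classical in
theorem rect_count : TR (Nat.count (New M)) K := by
  have h2 : RecT {(K : ℕ →. ℕ)} fun m => m.unpair.2.unpair.2 + chi (New M) m.unpair.2.unpair.1 := by
    have add : Computable₂ fun a b : ℕ => a + b := Primrec.nat_add.to_comp
    exact rmap₂ add (recT_of (c2.comp c2)) ((rect_new M).comp (recT_of (c1.comp c2)))
  have h3 := (RecT.prec (recT_const 0) h2).comp (recT_id.pair recT_id)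
  refine (show (fun n => _) = Nat.count (New M) from ?_) ▸ h3
  funext j
  simp only [Nat.unpair_pair]
  induction j with
  | zero => simp
  | succ n ih =>
    rw [Nat.count_succ, ← ih]
    simp only [add_right_inj]
    unfold chi
    congr

theorem exists_fst (i : ℕ) : ∃ n, chi (Sep M) (Nat.pair n i) = 0 :=
  ⟨i, chi_eq_zero (by simp [Sep])⟩

/-- the first index of the point with index `i` -/
noncomputable def fs (i : ℕ) : ℕ := Nat.find (exists_fst M i)

theorem fs_spec (i : ℕ) : M.c (fs M i) = M.c i := by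
  have h := Nat.find_spec (exists_fst M i)
  rw [chi_zero_iff] at h
  have h2 : ¬ Sep M (Nat.pair (fs M i) i) := h
  unfold Sep at h2
  rw [Nat.unpair_pair, not_not] at h2
  exact h2

theorem fs_min (i j : ℕ) (h : M.c j = M.c i) : fs M i ≤ j := by
  apply Nat.find_min' (exists_fst M i)
  rw [chi_zero_iff]
  simpa [Sep] using h

theorem new_fs (i : ℕ) : New M (fs M i) := by
  intro j hj h
  rw [fs_spec] at h
  have := fs_min M i j h
  omega

theorem fs_new {j : ℕ} (h : New M j) : fs M j = j := by
  rcases lt_or_ge (fs M j) j with h1 | h1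
  · exact absurd (fs_spec M j) (h _ h1)
  · exact le_antisymm (fs_min M j j rfl) h1

theorem rect_fs : TR (fs M) K := by
  have h1 : TR (chi (Sep M)) K := chi_TR_K (sep_re M)
  have h2 : RecT {(K : ℕ →. ℕ)} fun m => chi (Sep M) (Nat.pair m.unpair.2 m.unpair.1) :=
    rcomp₂ h1 (recT_of c2) (recT_of c1)
  have hex : ∀ a, ∃ n, chi (Sep M) (Nat.pair (Nat.pair a n).unpair.2 (Nat.pair a n).unpair.1) = 0 := by
    intro a
    simpa using exists_fst M a
  have h3 := RecT.find h2 hex
  refine (show (fun n => _) = fs M from ?_) ▸ h3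
  funext a
  unfold fs
  congr 1
  funext n
  simp

variable {M}

/-- every point of a discrete space is in the dense sequence -/
theorem exists_index [DiscreteTopology M.Y] (x : M.Y) : ∃ i, M.c i = x := by
  obtain ⟨i, hi⟩ := M.dense.exists_mem_open (isOpen_discrete ({x} : Set M.Y)) ⟨x, rfl⟩
  exact ⟨i, hi⟩

theorem infinite_new [DiscreteTopology M.Y] [Infinite M.Y] : (Set.ofPred (New M)).Infinite := by
  intro hfin
  have h1 : Function.Surjective fun j : (Set.ofPred (New M) : Set ℕ) => M.c j := by
    intro x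
    obtain ⟨i, hi⟩ := exists_index x
    exact ⟨⟨fs M i, new_fs M i⟩, by rw [← hi]; exact fs_spec M i⟩
  have : Finite (Set.ofPred (New M) : Set ℕ) := hfin
  have := Finite.of_surjective _ h1
  exact not_finite M.Y

end one

section two

variable (M N : CMS)

/-- index of the image of the point with index `i` -/
noncomputable def tr (i : ℕ) : ℕ :=
  open scoped Classical in Nat.nth (New N) (Nat.count (New M) (fs M i))

open scoped Classical in
theorem rect_nth [DiscreteTopology N.Y] [Infinite N.Y] : TR (Nat.nth (New N)) K := by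
  have hinf := infinite_new (M := N)
  -- zero exactly when `n` is new and has rank `a`
  have h1 : RecT {(K : ℕ →. ℕ)} fun m => if chi (New N) m.unpair.2 = 1 ∧
      Nat.count (New N) m.unpair.2 = m.unpair.1 then 0 else 1 := by
    have hF : Computable₂ fun u v : ℕ => if u = 1 ∧ v.unpair.1 = v.unpair.2 then 0 else 1 := by
      have e1 : PrimrecPred fun p : ℕ × ℕ => p.1 = 1 := Primrec.eq.comp Primrec.fst (Primrec.const 1)
      have e2 : PrimrecPred fun p : ℕ × ℕ => p.2.unpair.1 = p.2.unpair.2 :=
        Primrec.eq.comp (Primrec.fst.comp (Primrec.unpair.comp Primrec.snd))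
          (Primrec.snd.comp (Primrec.unpair.comp Primrec.snd))
      exact (Primrec.ite (e1.and e2) (Primrec.const 0) (Primrec.const 1)).to_comp
    have := rmap₂ hF ((rect_new N).comp (recT_of c2))
      (((rect_count N).comp (recT_of c2)).pair (recT_of c1))
    refine (show (fun n => _) = _ from ?_) ▸ this
    funext m
    simp only [Nat.unpair_pair]
  have hex : ∀ a, ∃ n, (if chi (New N) (Nat.pair a n).unpair.2 = 1 ∧
      Nat.count (New N) (Nat.pair a n).unpair.2 = (Nat.pair a n).unpair.1 then 0 else 1) = 0 := by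
    intro a
    refine ⟨Nat.nth (New N) a, ?_⟩
    rw [Nat.unpair_pair, if_pos]
    exact ⟨chi_eq_one (Nat.nth_mem_of_infinite hinf a), Nat.count_nth_of_infinite hinf a⟩
  have h3 := RecT.find h1 hex
  refine (show (fun n => _) = Nat.nth (New N) from ?_) ▸ h3
  funext a
  have h4 := Nat.find_spec (hex a)
  set n := Nat.find (hex a)
  rw [Nat.unpair_pair] at h4
  have h5 : chi (New N) n = 1 ∧ Nat.count (New N) n = a := by
    by_contra hcon
    simp only at h4
    rw [if_neg hcon] at h4
    exact one_ne_zero h4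
  have h6 : New N n := by
    by_contra hcon
    rw [chi_eq_zero hcon] at h5
    exact zero_ne_one h5.1
  rw [← h5.2]
  exact (Nat.nth_count h6).symm

theorem rect_tr [DiscreteTopology N.Y] [Infinite N.Y] : TR (tr M N) K := by
  classical
  exact (rect_nth N).comp ((rect_count M).comp (rect_fs M))

/-- first index of a point -/
noncomputable def ix [DiscreteTopology M.Y] (x : M.Y) : ℕ := fs M (exists_index x).choose

theorem c_ix [DiscreteTopology M.Y] (x : M.Y) : M.c (ix M x) = x := by
  unfold ix
  rw [fs_spec]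
  exact (exists_index x).choose_spec

theorem ix_c [DiscreteTopology M.Y] (i : ℕ) : ix M (M.c i) = fs M i := by
  unfold ix
  have h := (exists_index (M.c i)).choose_spec
  set j := (exists_index (M.c i)).choose
  apply le_antisymm
  · exact fs_min M _ _ (by rw [fs_spec, h])
  · exact fs_min M _ _ (by rw [fs_spec, h])

theorem new_ix [DiscreteTopology M.Y] (x : M.Y) : New M (ix M x) := new_fs M _

open scoped Classical in
/-- rank of a point -/
noncomputable def rkE [DiscreteTopology M.Y] [Infinite M.Y] : M.Y ≃ ℕ where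
  toFun x := Nat.count (New M) (ix M x)
  invFun r := M.c (Nat.nth (New M) r)
  left_inv := by
    intro x
    simp only
    rw [Nat.nth_count (new_ix M x), c_ix]
  right_inv := by
    intro r
    simp only
    rw [ix_c, fs_new M (Nat.nth_mem_of_infinite (infinite_new (M := M)) r)]
    exact Nat.count_nth_of_infinite (infinite_new (M := M)) r

/-- the homeomorphism -/
noncomputable def hm [DiscreteTopology M.Y] [Infinite M.Y] [DiscreteTopology N.Y] [Infinite N.Y] :
    M.Y ≃ₜ N.Y :=
  ((rkE M).trans (rkE N).symm).toHomeomorphOfDiscrete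

theorem hm_c [DiscreteTopology M.Y] [Infinite M.Y] [DiscreteTopology N.Y] [Infinite N.Y] (i : ℕ) :
    hm M N (M.c i) = N.c (tr M N i) := by
  classical
  show N.c (Nat.nth (New N) (Nat.count (New M) (ix M (M.c i)))) = _
  unfold tr
  rw [ix_c]

/-- on the word with number `s`: position of the first entry which is seen to be the named point -/
theorem ex_pos (s : ℕ) : ∃ k, (if (Denumerable.ofNat (List ℕ) s).length ≤ k + 1 then 0 else
    chi (Nb M) (Nat.pair ((Denumerable.ofNat (List ℕ) s).getD (k + 1) 0) k)) = 0 :=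
  ⟨(Denumerable.ofNat (List ℕ) s).length, if_pos (Nat.le_succ _)⟩

noncomputable def ps (s : ℕ) : ℕ := Nat.find (ex_pos M s)

theorem cofNat : Computable (fun s : ℕ => Denumerable.ofNat (List ℕ) s) := Computable.ofNat _

theorem cgetD : Computable₂ fun (s k : ℕ) => (Denumerable.ofNat (List ℕ) s).getD k 0 := by
  have h : Primrec₂ fun (l : List ℕ) (n : ℕ) => l.getD n 0 := Primrec.list_getD 0
  exact h.to_comp.comp (cofNat.comp Computable.fst) Computable.snd

theorem rect_ps : TR (ps M) K := by
  have hnb : TR (chi (Nb M)) K := chi_TR_K (nb_re M)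
  have h1 : RecT {(K : ℕ →. ℕ)} fun m => if (Denumerable.ofNat (List ℕ) m.unpair.1).length ≤
      m.unpair.2 + 1 then 0 else
      chi (Nb M) (Nat.pair ((Denumerable.ofNat (List ℕ) m.unpair.1).getD (m.unpair.2 + 1) 0)
        m.unpair.2) := by
    have hF : Computable₂ fun m v : ℕ => if (Denumerable.ofNat (List ℕ) m.unpair.1).length ≤
        m.unpair.2 + 1 then 0 else v := by
      have e1 : PrimrecPred fun p : ℕ × ℕ =>
          (Denumerable.ofNat (List ℕ) p.1.unpair.1).length ≤ p.1.unpair.2 + 1 :=
        Primrec.nat_le.comp (Primrec.list_length.comp ((Primrec.ofNat (List ℕ)).comp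
          (Primrec.fst.comp (Primrec.unpair.comp Primrec.fst))))
          (Primrec.succ.comp (Primrec.snd.comp (Primrec.unpair.comp Primrec.fst)))
      exact (Primrec.ite e1 (Primrec.const 0) Primrec.snd).to_comp
    exact rmap₂ hF recT_id (rcomp₂ hnb (recT_of (cgetD.comp c1 (Computable.succ.comp c2)))
      (recT_of c2))
  have hex : ∀ a, ∃ n, (if (Denumerable.ofNat (List ℕ) (Nat.pair a n).unpair.1).length ≤
      (Nat.pair a n).unpair.2 + 1 then 0 else
      chi (Nb M) (Nat.pair ((Denumerable.ofNat (List ℕ) (Nat.pair a n).unpair.1).getD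
        ((Nat.pair a n).unpair.2 + 1) 0) (Nat.pair a n).unpair.2)) = 0 := by
    intro a
    simpa only [Nat.unpair_pair] using ex_pos M a
  have h3 := RecT.find h1 hex
  refine (show (fun n => _) = ps M from ?_) ▸ h3
  funext a
  unfold ps
  congr 1
  funext n
  simp only [Nat.unpair_pair]

/-- result on the word with number `s`: `0` for nothing yet -/
noncomputable def out (s : ℕ) : ℕ :=
  if (Denumerable.ofNat (List ℕ) s).length ≤ ps M s + 1 then 0
  else tr M N ((Denumerable.ofNat (List ℕ) s).getD (ps M s + 1) 0) + 1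

theorem rect_out [DiscreteTopology N.Y] [Infinite N.Y] : TR (out M N) K := by
  have hF : Computable₂ fun m v : ℕ => if (Denumerable.ofNat (List ℕ) m.unpair.1).length ≤
      m.unpair.2 + 1 then 0 else v + 1 := by
    have e1 : PrimrecPred fun p : ℕ × ℕ =>
        (Denumerable.ofNat (List ℕ) p.1.unpair.1).length ≤ p.1.unpair.2 + 1 :=
      Primrec.nat_le.comp (Primrec.list_length.comp ((Primrec.ofNat (List ℕ)).comp
        (Primrec.fst.comp (Primrec.unpair.comp Primrec.fst))))
        (Primrec.succ.comp (Primrec.snd.comp (Primrec.unpair.comp Primrec.fst)))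
    exact (Primrec.ite e1 (Primrec.const 0) (Primrec.succ.comp Primrec.snd)).to_comp
  have hp := rect_ps M
  have hg : Computable₂ fun (s k : ℕ) => (Denumerable.ofNat (List ℕ) s).getD (k + 1) 0 :=
    cgetD.comp Computable.fst (Computable.succ.comp Computable.snd)
  have h1 := rmap₂ hF (recT_id.pair hp) ((rect_tr M N).comp (rmap₂ hg recT_id hp))
  refine (show (fun n => _) = out M N from ?_) ▸ h1
  funext s
  unfold out
  simp only [Nat.unpair_pair]

/-- the functional -/
noncomputable def fn (p : List ℕ × ℕ) : Part ℕ :=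
  if out M N (Encodable.encode p.1) = 0 then Part.none
  else Part.some (out M N (Encodable.encode p.1) - 1)

theorem recIn_fn [DiscreteTopology N.Y] [Infinite N.Y] : RecursiveIn {orc K} (fn M N) := by
  -- minus one
  have h1 : Nat.Partrec fun v : ℕ => if v = 0 then Part.none else Part.some (v - 1) := by
    have hp : Primrec fun v : ℕ => ((if v = 0 then none else some (v - 1)) : Option ℕ) :=
      Primrec.ite (Primrec.eq.comp Primrec.id (Primrec.const 0)) (Primrec.const none)
        (Primrec.option_some.comp Primrec.pred)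
    have h : Partrec fun v : ℕ => Part.ofOption ((if v = 0 then none else some (v - 1)) : Option ℕ) :=
      hp.to_comp.ofOption
    refine (Partrec.nat_iff.1 h).of_eq fun v => ?_
    by_cases h : v = 0
    · simp [h]
    · simp [h]
  have h2 : RecT {orc K} fun m => out M N m.unpair.1 := (rect_out M N).comp (recT_of c1)
  have h3 := Nat.RecursiveIn.comp (h1.recursiveIn (O := {orc K})) h2
  refine h3.of_eq fun m => ?_
  have hm : Encodable.decode (α := List ℕ × ℕ) m = some (Denumerable.ofNat (List ℕ) m.unpair.1,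
      m.unpair.2) := by
    rw [Denumerable.decode_eq_ofNat, Denumerable.prod_ofNat_val]
    simp
  rw [hm]
  simp only [Part.coe_some, Part.bind_some, Part.bind_eq_bind, fn, Denumerable.encode_ofNat]
  split_ifs
  · simp
  · simp

theorem compMap_hm [DiscreteTopology M.Y] [Infinite M.Y] [DiscreteTopology N.Y] [Infinite N.Y] :
    CompMapIn K M N (hm M N) := by
  refine ⟨fn M N, recIn_fn M N, fun x p hp => ?_⟩
  obtain ⟨i, rfl⟩ := exists_index x
  have hne : ∀ j, M.c j ≠ M.c i → dist (M.c j) (M.c i) ≠ 0 := fun j h => by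
    rwa [Ne, dist_eq_zero]
  -- a position which is good is correct
  have hgood : ∀ k, ¬ Nb M (Nat.pair (p (k + 1)) k) → M.c (p (k + 1)) = M.c i := by
    intro k hk
    by_contra hcon
    apply hk
    refine ⟨i, ?_, ?_⟩
    · simpa using hcon
    · simp only [Nat.unpair_pair]
      refine lt_of_le_of_lt (hp (k + 1)) ?_
      apply one_div_lt_one_div_of_lt (by positivity)
      exact pow_lt_pow_right₀ (by norm_num) (Nat.lt_succ_self k)
  -- some position is good
  obtain ⟨r, hr⟩ : ∃ r : ℕ, ∀ y : M.Y, y ≠ M.c i → 1 / 2 ^ r ≤ dist y (M.c i) := by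
    obtain ⟨ε, hε, hε2⟩ := Metric.isOpen_iff.1 (isOpen_discrete ({M.c i} : Set M.Y)) (M.c i) rfl
    obtain ⟨r, hr⟩ := exists_pow_lt_of_lt_one hε (show (1 / 2 : ℝ) < 1 by norm_num)
    refine ⟨r, fun y hy => ?_⟩
    by_contra hcon
    push Not at hcon
    rw [one_div_pow] at hr
    exact hy (hε2 (Metric.mem_ball.2 (hcon.trans hr)))
  have hex : ∃ k, ¬ Nb M (Nat.pair (p (k + 1)) k) := by
    refine ⟨r + 1, ?_⟩
    have h1 : M.c (p (r + 1 + 1)) = M.c i := by
      by_contra hcon
      have h2 := hr _ hcon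
      have h3 := hp (r + 1 + 1)
      have h4 : (1 : ℝ) / 2 ^ (r + 1 + 1) < 1 / 2 ^ r := by
        apply one_div_lt_one_div_of_lt (by positivity)
        exact pow_lt_pow_right₀ (by norm_num) (by omega)
      linarith
    rintro ⟨j, h2, h3⟩
    simp only [Nat.unpair_pair] at h2 h3
    rw [h1] at h2 h3
    have h5 := hr (M.c j) (Ne.symm h2)
    rw [dist_comm] at h5
    have h4 : (1 : ℝ) / 2 ^ (r + 1) < 1 / 2 ^ r := by
      apply one_div_lt_one_div_of_lt (by positivity)
      exact pow_lt_pow_right₀ (by norm_num) (by omega)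
    linarith
  have htr : ∀ k, ¬ Nb M (Nat.pair (p (k + 1)) k) → tr M N (p (k + 1)) = tr M N i := by
    intro k hk
    have h := hgood k hk
    unfold tr
    have : fs M (p (k + 1)) = fs M i := by
      apply le_antisymm
      · exact fs_min M _ _ (by rw [fs_spec, h])
      · exact fs_min M _ _ (by rw [fs_spec, h])
    rw [this]
  -- values of the functional
  have hlen : ∀ k, (pre p k).length = k := fun k => by simp [pre]
  have hget : ∀ k j, j < k → (pre p k).getD j 0 = p j := fun k j h => by simp [pre, h]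
  have hval : ∀ L n, (fn M N (pre p L, n) = Part.none) ∨ fn M N (pre p L, n) =
      Part.some (tr M N i) := by
    intro L n
    unfold fn
    simp only
    set s := Encodable.encode (pre p L) with hs
    have hs2 : Denumerable.ofNat (List ℕ) s = pre p L := Denumerable.ofNat_encode _
    have hspec := Nat.find_spec (ex_pos M s)
    have hps : Nat.find (ex_pos M s) = ps M s := rfl
    rw [hps] at hspec
    by_cases h : out M N s = 0
    · left; rw [if_pos h]
    · right
      rw [if_neg h]
      congr 1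
      unfold out at h ⊢
      rw [hs2, hlen] at h hspec ⊢
      by_cases h1 : L ≤ ps M s + 1
      · rw [if_pos h1] at h; exact absurd rfl h
      · rw [if_neg h1] at hspec ⊢
        rw [hget _ _ (by omega)] at hspec ⊢
        rw [chi_zero_iff] at hspec
        rw [Nat.add_sub_cancel]
        exact htr _ hspec
  refine ⟨fun _ => tr M N i, fun k => ?_, fun n => ⟨?_, ?_⟩⟩
  · rw [hm_c, dist_self]; positivity
  · obtain ⟨k₀, hk₀⟩ := hex
    refine ⟨k₀ + 2, ?_⟩
    rcases hval (k₀ + 2) n with h | h
    · exfalso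
      unfold fn at h
      simp only at h
      set s := Encodable.encode (pre p (k₀ + 2)) with hs
      have hs2 : Denumerable.ofNat (List ℕ) s = pre p (k₀ + 2) := Denumerable.ofNat_encode _
      have hle : ps M s ≤ k₀ := by
        apply Nat.find_min' (ex_pos M s)
        rw [hs2, hlen, if_neg (by omega), hget _ _ (by omega)]
        exact chi_eq_zero hk₀
      have h0 : out M N s ≠ 0 := by
        unfold out
        rw [hs2, hlen, if_neg (by omega)]
        exact Nat.succ_ne_zero _
      rw [if_neg h0] at h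
      exact Part.some_ne_none _ h
    · rw [h]; exact Part.mem_some _
  · intro k m hm
    rcases hval k n with h | h
    · rw [h] at hm; exact absurd hm (Part.notMem_none _)
    · rw [h] at hm; exact Part.mem_some_iff.1 hm

theorem hm_symm [DiscreteTopology M.Y] [Infinite M.Y] [DiscreteTopology N.Y] [Infinite N.Y] :
    (hm M N).symm = hm N M := by
  ext x
  rfl

end two

/-- the discrete countable space is `0'`-categorical -/
theorem catBoth : CatBoth ℕ K := by
  rintro M N ⟨i⟩ ⟨j⟩
  have : DiscreteTopology M.Y := i.symm.discreteTopology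
  have : DiscreteTopology N.Y := j.symm.discreteTopology
  have : Infinite M.Y := Infinite.of_injective i.symm i.symm.injective
  have : Infinite N.Y := Infinite.of_injective j.symm j.symm.injective
  refine ⟨hm M N, compMap_hm M N, ?_⟩
  rw [hm_symm]
  exact compMap_hm N M

end Pool.Agent.H109R3.TC
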